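import Pool.Agent.DiophGraph.Core

set_option autoImplicit false

namespace Pool.Agent.Results.MP_0951fc_nt.MinimalCounterexample

open Pool.Agent.DiophGraph

/-- Every finite graph `G` which is Diophantine but has no Diophantine labelling with nonsquare
products of labels (that is, with distinct square-free parts) contains an induced subgraph `G[A]`
with the same two properties, which has at least five vertices, in which every vertex has degree at
least three and which has no fan, i.e. no path `P 0, …, P (m - 1)` and edge `a b` such that the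
neighbours of `P i` are `a`, `b` and its neighbours on the path. -/
theorem result (V : Type) [Finite V] (G : SimpleGraph V) :
    Diophantine G → ¬ StronglyDiophantine G →
      ∃ A : Set V, Diophantine (G.induce A) ∧ ¬ StronglyDiophantine (G.induce A) ∧
        5 ≤ A.ncard ∧ (∀ v ∈ A, 3 ≤ {w | w ∈ A ∧ G.Adj v w}.ncard) ∧
        ¬ ∃ (m : ℕ) (P : ℕ → V), ∃ a ∈ A, ∃ b ∈ A, 0 < m ∧ G.Adj a b ∧
          (∀ i < m, P i ∈ A) ∧ (∀ i < m, ∀ j < m, P i = P j → i = j) ∧
          ∀ i < m, ∀ w ∈ A, G.Adj (P i) w ↔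
            w = a ∨ w = b ∨ ∃ j < m, w = P j ∧ (j = i + 1 ∨ i = j + 1) := by
  classical
  have := Fintype.ofFinite V
  intro hD hS
  obtain ⟨A, hA1, hA2⟩ : ∃ A : Finset V, ¬ (∃ f, Rep True G A f) ∧
      ∀ B : Finset V, B ⊂ A → ∃ f, Rep True G B f := by
    obtain ⟨A, hA, hmin⟩ := (Finset.isWellFounded_ssubset (α := V)).wf.has_min
      {A : Finset V | ¬ ∃ f, Rep True G A f}
      ⟨Finset.univ, fun ⟨f, hf⟩ => hS (StronglyDiophantine.of_rep ⟨f, by simpa using hf⟩)⟩
    refine ⟨A, hA, fun B hB => ?_⟩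
    by_contra h
    exact hmin B h hB
  have hdeg : ∀ v ∈ (A : Set V), 3 ≤ {w | w ∈ (A : Set V) ∧ G.Adj v w}.ncard := by
    intro v hv
    have hv' : v ∈ A := Finset.mem_coe.1 hv
    by_contra hc
    have hc' : ((A.erase v).filter (G.Adj v)).card ≤ 2 := by
      have h1 : (A.filter (G.Adj v)).card ≤ 2 := by
        rw [← Set.ncard_coe_finset]
        have h2 : ((A.filter (G.Adj v) : Finset V) : Set V) = {w | w ∈ (A : Set V) ∧ G.Adj v w} := by
          ext w; simp
        rw [h2]; omega
      exact (Finset.card_le_card (Finset.filter_subset_filter _ (Finset.erase_subset v A))).trans h1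
    obtain ⟨f, hf⟩ := hA2 _ (Finset.erase_ssubset hv')
    obtain ⟨x, hx⟩ := step G (A.erase v) f hf v (Finset.notMem_erase v A) hc'
      (fun _ _ _ _ _ _ _ => Or.inl trivial)
    rw [Finset.insert_erase hv'] at hx
    exact hA1 ⟨_, hx⟩
  refine ⟨A, hD.comap (SimpleGraph.Embedding.induce _), fun h => hA1 ((rep_true_iff G A).1 h),
    ?_, hdeg, ?_⟩
  · -- at least five vertices
    by_contra h5
    have hcomp : ∀ v ∈ (A : Set V), ∀ w ∈ (A : Set V), v ≠ w → G.Adj v w := by
      intro v hv w hw hvw
      have h1 : {w | w ∈ (A : Set V) ∧ G.Adj v w} ⊆ (A : Set V) \ {v} := fun x hx =>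
        ⟨hx.1, fun e => G.irrefl ((Set.mem_singleton_iff.1 e) ▸ hx.2)⟩
      have h2 : ((A : Set V) \ {v}).ncard ≤ 3 := by
        rw [Set.ncard_sdiff_singleton_of_mem hv]; omega
      have h3 := Set.eq_of_subset_of_ncard_le h1 (h2.trans (hdeg v hv)) (Set.toFinite _)
      have h4 : w ∈ {w | w ∈ (A : Set V) ∧ G.Adj v w} := by
        rw [h3]; exact ⟨hw, fun e => hvw (Set.mem_singleton_iff.1 e).symm⟩
      exact h4.2
    obtain ⟨f, hf⟩ := (rep_false_iff G A).1 (hD.comap (SimpleGraph.Embedding.induce _))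
    refine hA1 ⟨f, hf.1, fun a ha b hb hab => ⟨(hf.2 a ha b hb hab).1, fun _ =>
      hf.nonsq ha hb hab (Or.inr (hcomp a ha b hb hab)), (hf.2 a ha b hb hab).2.2⟩⟩
  · rintro ⟨m, P, a, ha, b, hb, hm, hab, hPA, hinj, hN⟩
    have hsub : (Finset.range m).image P ⊆ A := by
      intro w hw
      obtain ⟨i, hi, rfl⟩ := Finset.mem_image.1 hw
      exact Finset.mem_coe.1 (hPA i (Finset.mem_range.1 hi))
    have hP0 : P 0 ∈ (Finset.range m).image P :=
      Finset.mem_image_of_mem P (Finset.mem_range.2 hm)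
    have haP : a ∉ (Finset.range m).image P := by
      intro hw
      obtain ⟨i, hi, rfl⟩ := Finset.mem_image.1 hw
      exact G.irrefl ((hN i (Finset.mem_range.1 hi) (P i) ha).2 (Or.inl rfl))
    have hbP : b ∉ (Finset.range m).image P := by
      intro hw
      obtain ⟨i, hi, rfl⟩ := Finset.mem_image.1 hw
      exact G.irrefl ((hN i (Finset.mem_range.1 hi) (P i) hb).2 (Or.inr (Or.inl rfl)))
    have hss : A \ (Finset.range m).image P ⊂ A := by
      refine Finset.ssubset_iff_subset_ne.2 ⟨Finset.sdiff_subset, fun e => ?_⟩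
      have h1 : P 0 ∈ A \ (Finset.range m).image P := by rw [e]; exact hsub hP0
      exact (Finset.mem_sdiff.1 h1).2 hP0
    obtain ⟨f, hf⟩ := hA2 _ hss
    obtain ⟨g, hg⟩ := step3 G (A \ (Finset.range m).image P) f hf m P a b
      (fun i hi hw => (Finset.mem_sdiff.1 hw).2
        (Finset.mem_image_of_mem P (Finset.mem_range.2 hi)))
      hinj (Finset.mem_sdiff.2 ⟨ha, haP⟩) (Finset.mem_sdiff.2 ⟨hb, hbP⟩) hab
      (fun i hi w hw => by
        have hw1 := Finset.mem_sdiff.1 hw
        rw [hN i hi w hw1.1]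
        constructor
        · rintro (h | h | ⟨j, hj, rfl, -⟩)
          · exact Or.inl h
          · exact Or.inr h
          · exact absurd (Finset.mem_image_of_mem P (Finset.mem_range.2 hj)) hw1.2
        · rintro (h | h)
          · exact Or.inl h
          · exact Or.inr (Or.inl h))
      (fun i hi j hj => by
        rw [hN i hi (P j) (hPA j hj)]
        constructor
        · rintro (h | h | ⟨k, hk, h1, h2⟩)
          · exact absurd (h ▸ Finset.mem_image_of_mem P (Finset.mem_range.2 hj)) haP
          · exact absurd (h ▸ Finset.mem_image_of_mem P (Finset.mem_range.2 hj)) hbP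
          · rw [hinj j hj k hk h1]; exact h2
        · intro h
          exact Or.inr (Or.inr ⟨j, hj, rfl, h⟩))
    rw [Finset.sdiff_union_of_subset hsub] at hg
    exact hA1 ⟨g, hg⟩

end Pool.Agent.Results.MP_0951fc_nt.MinimalCounterexample
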